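import Pool.Agent.V11111.QJ.States

open MeasureTheory Set Filter Topology
open scoped ENNReal InnerProductSpace

namespace Pool.Agent.V11111.QJ

noncomputable section

variable {N M : ℕ}

/-- the configurations with particle `i` in the chosen ball of cluster `σ i` -/
def cell (b : Fin N → Fin M → Set E3) (κ : Fin N → Fin M) (σ : Equiv.Perm (Fin N)) :
    Set (Conf N) :=
  {X | ∀ i, X i ∈ b (σ i) (κ (σ i))}

/-- the situation: components `b i k` of `L` -/
structure Comps (L : Set E3) (ρ E : ℝ) (b : Fin N → Fin M → Set E3) : Prop where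
  opL : IsOpen L
  fin : volume L ≠ ⊤
  sub : ∀ i k, b i k ⊆ L
  opn : ∀ i k, IsOpen (b i k)
  ne : ∀ i k, (b i k).Nonempty
  rest : ∀ i k, IsOpen (L \ b i k)
  disj : ∀ i k i' k' x, x ∈ b i k → x ∈ b i' k' → i = i' ∧ k = k'
  pot : ∀ κ σ X, X ∈ cell b κ σ → U ρ L X ≤ E

/-- the (anti)symmetrised characteristic function of a cell -/
def st (s : Stat) (b : Fin N → Fin M → Set E3) (κ : Fin N → Fin M) (X : Conf N) : ℂ :=
  ∑ σ : Equiv.Perm (Fin N), s.sgn σ * (cell b κ σ).indicator (fun _ => (1 : ℂ)) X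

lemma sgn_mul (s : Stat) (σ τ : Equiv.Perm (Fin N)) :
    s.sgn (σ * τ) = s.sgn σ * s.sgn τ := by
  cases s
  · simp [Stat.sgn]
  · simp [Stat.sgn]

lemma sgn_one (s : Stat) : s.sgn (1 : Equiv.Perm (Fin N)) = 1 := by
  cases s
  · simp [Stat.sgn]
  · simp [Stat.sgn]

lemma cell_perm (b : Fin N → Fin M → Set E3) (κ : Fin N → Fin M) (σ τ : Equiv.Perm (Fin N))
    (X : Conf N) : (fun i => X (τ i)) ∈ cell b κ σ ↔ X ∈ cell b κ (σ * τ⁻¹) := by
  simp only [cell, mem_ofPred_eq, Equiv.Perm.mul_apply]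
  constructor
  · intro h i
    have h2 := h (τ⁻¹ i)
    have h3 : τ (τ⁻¹ i) = i := by simp
    rwa [h3] at h2
  · intro h i
    have h2 := h (τ i)
    have h3 : τ⁻¹ (τ i) = i := by simp
    rwa [h3] at h2

lemma st_stat (s : Stat) (b : Fin N → Fin M → Set E3) (κ : Fin N → Fin M)
    (τ : Equiv.Perm (Fin N)) (X : Conf N) :
    st s b κ (fun i => X (τ i)) = s.sgn τ * st s b κ X := by
  unfold st
  rw [Finset.mul_sum]
  refine Fintype.sum_equiv (Equiv.mulRight τ⁻¹) _ _ fun σ => ?_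
  rw [Equiv.coe_mulRight]
  have h1 : (cell b κ σ).indicator (fun _ => (1 : ℂ)) (fun i => X (τ i))
      = (cell b κ (σ * τ⁻¹)).indicator (fun _ => (1 : ℂ)) X := by
    by_cases h : X ∈ cell b κ (σ * τ⁻¹)
    · rw [indicator_of_mem h, indicator_of_mem ((cell_perm b κ σ τ X).2 h)]
    · rw [indicator_of_notMem h, indicator_of_notMem fun h' => h ((cell_perm b κ σ τ X).1 h')]
  have h2 : s.sgn σ = s.sgn τ * s.sgn (σ * τ⁻¹) := by
    rw [mul_comm, ← sgn_mul, inv_mul_cancel_right]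
  rw [h1, h2, mul_assoc]

variable {L : Set E3} {ρ E : ℝ} {b : Fin N → Fin M → Set E3}

lemma isOpen_cell (h : Comps L ρ E b) (κ : Fin N → Fin M) (σ : Equiv.Perm (Fin N)) :
    IsOpen (cell b κ σ) := by
  have : cell b κ σ = Set.univ.pi fun i => b (σ i) (κ (σ i)) := by
    ext X; simp [cell]
  rw [this]
  exact isOpen_set_pi Set.finite_univ fun i _ => h.opn _ _

lemma cell_ne (h : Comps L ρ E b) (κ : Fin N → Fin M) (σ : Equiv.Perm (Fin N)) :
    (cell b κ σ).Nonempty := by
  choose x hx using fun i => h.ne (σ i) (κ (σ i))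
  exact ⟨x, hx⟩

lemma cell_sub (h : Comps L ρ E b) (κ : Fin N → Fin M) (σ : Equiv.Perm (Fin N)) :
    cell b κ σ ⊆ box L N := fun _ hX i => h.sub _ _ (hX i)

lemma cell_disj (h : Comps L ρ E b) {κ κ' : Fin N → Fin M} {σ σ' : Equiv.Perm (Fin N)}
    {X : Conf N} (h1 : X ∈ cell b κ σ) (h2 : X ∈ cell b κ' σ') : σ = σ' ∧ κ = κ' := by
  have h3 : ∀ i, σ i = σ' i ∧ κ (σ i) = κ' (σ' i) := fun i =>
    h.disj _ _ _ _ (X i) (h1 i) (h2 i)
  have h4 : σ = σ' := Equiv.ext fun i => (h3 i).1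
  refine ⟨h4, ?_⟩
  funext i
  have h5 := (h3 (σ.symm i)).2
  rw [← h4, Equiv.apply_symm_apply] at h5
  exact h5

lemma cell_loc (h : Comps L ρ E b) (κ : Fin N → Fin M) (σ : Equiv.Perm (Fin N))
    {X : Conf N} (hX : X ∈ box L N) :
    (cell b κ σ).indicator (fun _ => (1 : ℂ)) =ᶠ[𝓝 X]
      fun _ => (cell b κ σ).indicator (fun _ => (1 : ℂ)) X := by
  by_cases hc : X ∈ cell b κ σ
  · filter_upwards [(isOpen_cell h κ σ).mem_nhds hc] with Y hY
    rw [indicator_of_mem hc, indicator_of_mem hY]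
  · have h1 : ∃ i, X i ∉ b (σ i) (κ (σ i)) := by
      by_contra h2
      push Not at h2
      exact hc h2
    obtain ⟨i, hi⟩ := h1
    have h2 : {Y : Conf N | Y i ∈ L \ b (σ i) (κ (σ i))} ∈ 𝓝 X :=
      ((h.rest _ _).preimage (continuous_apply i)).mem_nhds ⟨hX i, hi⟩
    filter_upwards [h2] with Y hY
    have hY' : Y ∉ cell b κ σ := fun h3 => hY.2 (h3 i)
    rw [indicator_of_notMem hc, indicator_of_notMem hY']

lemma st_nice (h : Comps L ρ E b) (s : Stat) (κ : Fin N → Fin M) :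
    Nice ρ E s L N (st s b κ) where
  loc := fun X hX => by
    have h1 : ∀ᶠ Y in 𝓝 X, ∀ σ : Equiv.Perm (Fin N),
        (cell b κ σ).indicator (fun _ => (1 : ℂ)) Y
          = (cell b κ σ).indicator (fun _ => (1 : ℂ)) X := by
      rw [eventually_all]
      intro σ
      exact cell_loc h κ σ hX
    filter_upwards [h1] with Y hY
    unfold st
    exact Finset.sum_congr rfl fun σ _ => by rw [hY σ]
  stat := fun σ X => st_stat s b κ σ X
  pot := fun X hX => by
    unfold st at hX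
    obtain ⟨σ, -, hσ⟩ := Finset.exists_ne_zero_of_sum_ne_zero hX
    have h1 : X ∈ cell b κ σ := by
      by_contra h2
      rw [indicator_of_notMem h2, mul_zero] at hσ
      exact hσ rfl
    exact h.pot κ σ X h1

lemma st_mem (_h : Comps L ρ E b) {s : Stat} {κ : Fin N → Fin M} {X : Conf N}
    (hX : st s b κ X ≠ 0) : ∃ σ, X ∈ cell b κ σ := by
  unfold st at hX
  obtain ⟨σ, -, hσ⟩ := Finset.exists_ne_zero_of_sum_ne_zero hX
  refine ⟨σ, ?_⟩
  by_contra h2
  rw [indicator_of_notMem h2, mul_zero] at hσ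
  exact hσ rfl

lemma st_one (h : Comps L ρ E b) {s : Stat} {κ : Fin N → Fin M} {X : Conf N}
    (hX : X ∈ cell b κ 1) : st s b κ X = 1 := by
  unfold st
  rw [Finset.sum_eq_single 1]
  · rw [sgn_one, indicator_of_mem hX, mul_one]
  · intro σ _ hσ
    rw [indicator_of_notMem fun h2 => hσ (cell_disj h h2 hX).1, mul_zero]
  · intro h2
    exact absurd (Finset.mem_univ _) h2

lemma box_meas_ne_top (h : volume L ≠ ⊤) : (volume : Measure (Conf N)) (box L N) ≠ ⊤ := by
  have : box L N = Set.univ.pi fun _ : Fin N => L := by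
    ext X; simp [box]
  rw [this, volume_pi, Measure.pi_pi]
  rw [Finset.prod_const]
  exact ENNReal.pow_ne_top h

lemma mu_ne_top (h : volume L ≠ ⊤) : IsFiniteMeasure (mu L N) := by
  constructor
  rw [mu, Measure.restrict_apply_univ]
  exact lt_top_iff_ne_top.2 (box_meas_ne_top h)

lemma st_memLp (h : Comps L ρ E b) (s : Stat) (κ : Fin N → Fin M) :
    MemLp (st s b κ) 2 (mu L N) := by
  have := mu_ne_top (N := N) h.fin
  unfold st
  apply memLp_finsetSum
  intro σ _
  apply MemLp.const_mul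
  apply memLp_indicator_const _ (isOpen_cell h κ σ).measurableSet
  right
  exact measure_ne_top _ _

lemma st_sq_int (h : Comps L ρ E b) (s : Stat) (κ : Fin N → Fin M) :
    Integrable (fun X => ‖st s b κ X‖ ^ 2) (mu L N) :=
  (st_memLp h s κ).integrable_norm_pow (by norm_num)

/-- the squared norm of `st` -/
def msq (s : Stat) (L : Set E3) (b : Fin N → Fin M → Set E3) (κ : Fin N → Fin M) : ℝ :=
  ∫ X, ‖st s b κ X‖ ^ 2 ∂(mu L N)

lemma msq_pos (h : Comps L ρ E b) (s : Stat) (κ : Fin N → Fin M) : 0 < msq s L b κ := by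
  unfold msq
  rw [integral_pos_iff_support_of_nonneg (fun X => by positivity) (st_sq_int h s κ)]
  have h1 : cell b κ 1 ⊆ Function.support (fun X => ‖st s b κ X‖ ^ 2) := by
    intro X hX
    rw [Function.mem_support, st_one h hX]
    norm_num
  refine lt_of_lt_of_le ?_ (measure_mono h1)
  rw [mu, Measure.restrict_apply (isOpen_cell h κ 1).measurableSet,
    inter_eq_left.2 (cell_sub h κ 1)]
  exact (isOpen_cell h κ 1).measure_pos volume (cell_ne h κ 1)

/-- the normalised trial states -/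
def Phi (s : Stat) (L : Set E3) (b : Fin N → Fin M → Set E3) (κ : Fin N → Fin M)
    (X : Conf N) : ℂ := (((√(msq s L b κ))⁻¹ : ℝ) : ℂ) * st s b κ X

lemma Phi_sq (s : Stat) (κ : Fin N → Fin M) (X : Conf N) :
    ‖Phi s L b κ X‖ ^ 2 = (√(msq s L b κ))⁻¹ ^ 2 * ‖st s b κ X‖ ^ 2 := by
  unfold Phi
  rw [norm_mul, mul_pow, Complex.norm_real, Real.norm_eq_abs, sq_abs]

lemma Phi_int (h : Comps L ρ E b) (s : Stat) (κ : Fin N → Fin M) :
    Integrable (fun X => ‖Phi s L b κ X‖ ^ 2) (mu L N) := by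
  simp only [Phi_sq]
  exact (st_sq_int h s κ).const_mul _

lemma Phi_norm (h : Comps L ρ E b) (s : Stat) (κ : Fin N → Fin M) :
    ∫ X, ‖Phi s L b κ X‖ ^ 2 ∂(mu L N) = 1 := by
  simp only [Phi_sq]
  rw [integral_const_mul]
  have h1 := msq_pos h s κ
  show (√(msq s L b κ))⁻¹ ^ 2 * msq s L b κ = 1
  rw [inv_pow, Real.sq_sqrt h1.le]
  exact inv_mul_cancel₀ h1.ne'

lemma Phi_disj (h : Comps L ρ E b) (s : Stat) {κ κ' : Fin N → Fin M} (hκ : κ ≠ κ')
    (X : Conf N) : Phi s L b κ X = 0 ∨ Phi s L b κ' X = 0 := by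
  by_contra h0
  push Not at h0
  obtain ⟨h1, h2⟩ := h0
  have h3 : st s b κ X ≠ 0 := right_ne_zero_of_mul h1
  have h4 : st s b κ' X ≠ 0 := right_ne_zero_of_mul h2
  obtain ⟨σ, hσ⟩ := st_mem h h3
  obtain ⟨σ', hσ'⟩ := st_mem h h4
  exact hκ (cell_disj h hσ hσ').2

lemma Phi_frame (h : Comps L ρ E b) (s : Stat) {k : ℕ} {e : Fin k → (Fin N → Fin M)}
    (he : Function.Injective e) : Frame s L N k (fun a => Phi s L b (e a)) where
  memLp := fun a => (st_memLp h s (e a)).const_mul _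
  stat := fun a σ => Filter.Eventually.of_forall fun X => by
    show Phi s L b (e a) (fun i => X (σ i)) = s.sgn σ * Phi s L b (e a) X
    unfold Phi
    rw [st_stat]
    ring
  orthonormal := fun a c => by
    by_cases hac : a = c
    · subst hac
      rw [if_pos rfl]
      have h1 : ∀ X, starRingEnd ℂ (Phi s L b (e a) X) * Phi s L b (e a) X
          = ((‖Phi s L b (e a) X‖ ^ 2 : ℝ) : ℂ) := by
        intro X
        rw [Complex.conj_mul']
        push_cast
        rfl
      simp only [h1]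
      rw [integral_complex_ofReal, Phi_norm h]
      norm_num
    · rw [if_neg hac]
      have h1 : ∀ X, starRingEnd ℂ (Phi s L b (e a) X) * Phi s L b (e c) X = 0 := by
        intro X
        rcases Phi_disj h s (fun h2 => hac (he h2)) X with h3 | h3
        · rw [h3, map_zero, zero_mul]
        · rw [h3, mul_zero]
      simp only [h1, integral_zero]

lemma eig_le_cells (h : Comps L ρ E b) (hE : 0 ≤ E) (s : Stat) {k : ℕ} (hk : k ≤ M ^ N) :
    eig ρ s L N k ≤ (E : EReal) := by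
  have hcard : Fintype.card (Fin N → Fin M) = M ^ N := by simp
  let e : Fin k → (Fin N → Fin M) := fun a =>
    (Fintype.equivFinOfCardEq hcard).symm (Fin.castLE hk a)
  have he : Function.Injective e := by
    intro a a' haa
    exact Fin.castLE_injective hk ((Fintype.equivFinOfCardEq hcard).symm.injective haa)
  exact eig_le hE (fun a => Phi s L b (e a)) (Phi_frame h s he)
    (fun a => (st_nice h s (e a)).smul _) (fun a => Phi_int h s (e a))
    (fun a => Phi_norm h s (e a)) (fun a a' ha => Phi_disj h s fun h2 => ha (he h2))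

lemma partFun_ge (h : Comps L ρ E b) (hE : 0 ≤ E) (s : Stat) {β : ℝ} (hβ : 0 < β) :
    ((M ^ N : ℕ) : ℝ≥0∞) * ENNReal.ofReal (Real.exp (-(β * E))) ≤ partFun β ρ s L N := by
  unfold partFun
  have h1 : ∀ k ∈ Finset.range (M ^ N), ENNReal.ofReal (Real.exp (-(β * E)))
      ≤ EReal.exp (-((β : EReal) * eig ρ s L N (k + 1))) := by
    intro k hk
    rw [Finset.mem_range] at hk
    have h2 := eig_le_cells h hE s (k := k + 1) hk
    rw [← EReal.exp_coe]
    apply EReal.exp_monotone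
    rw [EReal.coe_neg, EReal.coe_mul]
    apply EReal.neg_le_neg_iff.2
    exact mul_le_mul_of_nonneg_left h2 (by exact_mod_cast hβ.le)
  calc ((M ^ N : ℕ) : ℝ≥0∞) * ENNReal.ofReal (Real.exp (-(β * E)))
      = ∑ k ∈ Finset.range (M ^ N), ENNReal.ofReal (Real.exp (-(β * E))) := by
        rw [Finset.sum_const, Finset.card_range, nsmul_eq_mul]
    _ ≤ ∑ k ∈ Finset.range (M ^ N), EReal.exp (-((β : EReal) * eig ρ s L N (k + 1))) :=
        Finset.sum_le_sum h1
    _ ≤ _ := ENNReal.sum_le_tsum _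

lemma gN_ge (h : Comps L ρ E b) (hM : 0 < M) (hE : 0 ≤ E) (s : Stat) {β : ℝ} (hβ : 0 < β) :
    ((((volume L).toReal)⁻¹ * (N * Real.log M - β * E) : ℝ) : EReal) ≤ gN β ρ s L N := by
  unfold gN
  rw [EReal.coe_mul]
  apply mul_le_mul_of_nonneg_left _ (by
    have : 0 ≤ ((volume L).toReal)⁻¹ := by positivity
    exact_mod_cast this)
  have h1 := ENNReal.log_monotone (partFun_ge h hE s hβ)
  refine le_trans (le_of_eq ?_) h1
  have hpos : (0 : ℝ) < (M : ℝ) ^ N := by positivity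
  have h2 : ((M ^ N : ℕ) : ℝ≥0∞) * ENNReal.ofReal (Real.exp (-(β * E)))
      = ENNReal.ofReal ((M : ℝ) ^ N * Real.exp (-(β * E))) := by
    rw [ENNReal.ofReal_mul hpos.le]
    congr 1
    rw [← ENNReal.ofReal_natCast]
    push_cast
    rfl
  rw [h2, ENNReal.log_ofReal_of_pos (by positivity),
    Real.log_mul hpos.ne' (Real.exp_pos _).ne', Real.log_exp, Real.log_pow]
  rfl

end

end Pool.Agent.V11111.QJ
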