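import Pool.Agent.V11111.QJ.Defs

open MeasureTheory Set Filter Topology
open scoped ENNReal InnerProductSpace

namespace Pool.Agent.V11111.QJ

noncomputable section

/-- the truncated Coulomb potential -/
def trunc (y : E3) : ℝ := (Metric.ball (0 : E3) 1).indicator (fun y => ‖y‖⁻¹) y

lemma trunc_nonneg (y : E3) : 0 ≤ trunc y := by
  unfold trunc
  apply Set.indicator_nonneg
  intro y _
  positivity

lemma trunc_int : Integrable trunc := by
  unfold trunc
  rw [integrable_indicator_iff measurableSet_ball]
  refine MeasureTheory.integrableOn_ball_of_norm_le_rpow (C := 1) (α := 1) ?_ ?_ ?_ ?_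
  · simp
  · simp
  · refine ae_restrict_of_ae (Filter.Eventually.of_forall fun x => ?_)
    rw [Real.rpow_neg_one, one_mul, norm_inv, norm_norm]
  · exact Measurable.aestronglyMeasurable (by fun_prop)

/-- the constant bounding the singular part -/
def K0 : ℝ := ∫ y, trunc y

lemma K0_nonneg : 0 ≤ K0 := integral_nonneg trunc_nonneg

lemma bg_nonneg (L : Set E3) (x : E3) : 0 ≤ bg L x := by
  unfold bg
  apply integral_nonneg
  intro y
  show 0 ≤ ‖x - y‖⁻¹
  positivity

lemma bg_le {L : Set E3} (hL : volume L ≠ ⊤) (x : E3) : bg L x ≤ K0 + (volume L).toReal := by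
  have h1 : Integrable (fun y => trunc (x - y)) := trunc_int.comp_sub_left x
  have h2 : ∫ y, trunc (x - y) = K0 := integral_sub_left_eq_self trunc volume x
  have hc : IntegrableOn (fun _ : E3 => (1 : ℝ)) L := by
    rw [integrableOn_const_iff]
    right
    exact lt_top_iff_ne_top.2 hL
  have h3 : IntegrableOn (fun y => trunc (x - y) + 1) L := h1.integrableOn.add hc
  calc bg L x = ∫ y in L, ‖x - y‖⁻¹ := rfl
    _ ≤ ∫ y in L, (trunc (x - y) + 1) := by
        apply integral_mono_of_nonneg
        · exact Filter.Eventually.of_forall fun y => by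
            show 0 ≤ ‖x - y‖⁻¹
            positivity
        · exact h3
        · refine Filter.Eventually.of_forall fun y => ?_
          show ‖x - y‖⁻¹ ≤ trunc (x - y) + 1
          unfold trunc
          by_cases h : x - y ∈ Metric.ball (0 : E3) 1
          · rw [Set.indicator_of_mem h]
            linarith
          · rw [Set.indicator_of_notMem h]
            rw [mem_ball_zero_iff, not_lt] at h
            rw [zero_add]
            exact inv_le_one_of_one_le₀ h
    _ = (∫ y in L, trunc (x - y)) + (volume L).toReal := by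
        rw [integral_add h1.integrableOn hc]
        simp [Measure.real]
    _ ≤ K0 + (volume L).toReal := by
        have : ∫ y in L, trunc (x - y) ≤ ∫ y, trunc (x - y) :=
          setIntegral_le_integral h1 (Filter.Eventually.of_forall fun y => trunc_nonneg _)
        linarith

lemma int_bg_le {L : Set E3} (hL : volume L ≠ ⊤) :
    ∫ x in L, bg L x ≤ (K0 + (volume L).toReal) * (volume L).toReal := by
  have h := norm_setIntegral_le_of_norm_le_const (μ := volume) (s := L) (f := bg L)
    (C := K0 + (volume L).toReal) (lt_top_iff_ne_top.2 hL) (fun x _ => by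
      rw [Real.norm_of_nonneg (bg_nonneg L x)]
      exact bg_le hL x)
  exact (le_abs_self _).trans h

/-- upper bound of the potential energy when all pair distances are at least `1/(4N)`. -/
lemma U_le {ρ : ℝ} (hρ : 0 < ρ) {L : Set E3} (hL : volume L ≠ ⊤) {N : ℕ} (X : Conf N)
    {d : ℝ} (hd : 0 < d) (hX : ∀ i j, i ≠ j → d ≤ ‖X i - X j‖) :
    U ρ L X ≤ (N : ℝ) * (N * d⁻¹)
      + (1 / 2) * ρ ^ 2 * ((K0 + (volume L).toReal) * (volume L).toReal) := by
  unfold U
  have h1 : (∑ i, ∑ j ∈ Finset.univ.filter (fun j => i < j), ‖X i - X j‖⁻¹)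
      ≤ (N : ℝ) * (N * d⁻¹) := by
    calc (∑ i, ∑ j ∈ Finset.univ.filter (fun j => i < j), ‖X i - X j‖⁻¹)
        ≤ ∑ i : Fin N, ∑ j ∈ Finset.univ.filter (fun j => i < j), d⁻¹ := by
          apply Finset.sum_le_sum
          intro i _
          apply Finset.sum_le_sum
          intro j hj
          rw [Finset.mem_filter] at hj
          exact inv_anti₀ hd (hX i j hj.2.ne)
      _ ≤ ∑ i : Fin N, ∑ j : Fin N, d⁻¹ := by
          apply Finset.sum_le_sum
          intro i _
          apply Finset.sum_le_sum_of_subset_of_nonneg (Finset.filter_subset _ _)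
          intro _ _ _
          positivity
      _ = (N : ℝ) * (N * d⁻¹) := by simp
  have h2 : 0 ≤ ρ * (∑ i, bg L (X i)) :=
    mul_nonneg hρ.le (Finset.sum_nonneg fun i _ => bg_nonneg L _)
  have h3 : (1 / 2) * ρ ^ 2 * ∫ x in L, bg L x ≤
      (1 / 2) * ρ ^ 2 * ((K0 + (volume L).toReal) * (volume L).toReal) := by
    apply mul_le_mul_of_nonneg_left (int_bg_le hL)
    positivity
  linarith

end

end Pool.Agent.V11111.QJ
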