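import Mathlib

/-!
# Quantum jellium with Neumann boundary conditions: definitions

Everything is over `ℝ³ = EuclideanSpace ℝ (Fin 3)`.
-/

open MeasureTheory Set Filter Topology
open scoped ENNReal InnerProductSpace

namespace Pool.Agent.V11111.QJ

noncomputable section

/-- Euclidean space `ℝ³`. -/
abbrev E3 : Type := EuclideanSpace ℝ (Fin 3)

/-- Configurations of `N` particles in `ℝ³` (with its product Lebesgue measure). -/
abbrev Conf (N : ℕ) : Type := Fin N → E3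

/-- `Λ^N`, the configurations with all particles in `Λ`. -/
def box (L : Set E3) (N : ℕ) : Set (Conf N) := {X | ∀ i, X i ∈ L}

/-- Lebesgue measure on `Λ^N`. -/
def mu (L : Set E3) (N : ℕ) : Measure (Conf N) := volume.restrict (box L N)

/-- The two statistics. -/
inductive Stat
  | boson
  | fermion

/-- The sign by which a wave function changes under a permutation of the particles:
`1` for bosons, the signature for fermions. -/
def Stat.sgn {N : ℕ} : Stat → Equiv.Perm (Fin N) → ℂ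
  | .boson, _ => 1
  | .fermion, σ => ((Equiv.Perm.sign σ : ℤ) : ℂ)

/-- `ψ` is symmetric (bosons), respectively antisymmetric (fermions), as an element of
`L²(Λ^N)`. -/
def HasStat (s : Stat) (L : Set E3) {N : ℕ} (ψ : Conf N → ℂ) : Prop :=
  ∀ σ : Equiv.Perm (Fin N), ∀ᵐ X ∂(mu L N), ψ (fun i => X (σ i)) = s.sgn σ * ψ X

/-- The background potential without the factor `ρ`: `φ(x) = ∫_Λ |x - y|⁻¹ dy`. -/
def bg (L : Set E3) (x : E3) : ℝ := ∫ y in L, ‖x - y‖⁻¹

/-- The jellium potential energy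
`U(X) = ∑_{i<j} |x_i - x_j|⁻¹ - ρ ∑_i φ(x_i) + ½ ρ² ∫_Λ φ`. -/
def U (ρ : ℝ) (L : Set E3) {N : ℕ} (X : Conf N) : ℝ :=
  (∑ i, ∑ j ∈ Finset.univ.filter (fun j => i < j), ‖X i - X j‖⁻¹)
    - ρ * (∑ i, bg L (X i)) + (1 / 2) * ρ ^ 2 * ∫ x in L, bg L x

/-- The unit vector of configuration space in the `k`-th coordinate of the `i`-th particle. -/
def dir {N : ℕ} (i : Fin N) (k : Fin 3) : Conf N :=
  Pi.single i (EuclideanSpace.single k (1 : ℝ))

/-- `g` is the weak derivative of `ψ` on the open set `Λ^N` in the direction `v`: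
`∫_{Λ^N} (∂_v φ) ψ = - ∫_{Λ^N} φ g` for all real test functions `φ ∈ C_c^∞(Λ^N)`. -/
def IsWeakDeriv (L : Set E3) {N : ℕ} (v : Conf N) (ψ g : Conf N → ℂ) : Prop :=
  ∀ φ : Conf N → ℝ, ContDiff ℝ (⊤ : ℕ∞) φ → HasCompactSupport φ → tsupport φ ⊆ box L N →
    ∫ X, ((fderiv ℝ φ X v : ℝ) : ℂ) * ψ X ∂(mu L N) = - ∫ X, ((φ X : ℝ) : ℂ) * g X ∂(mu L N)

/-- The Neumann kinetic energy `½ ∫_{Λ^N} |∇ψ|²` of `ψ ∈ L²(Λ^N)`; the infimum is over
the (almost everywhere unique, if it exists) weak gradient of `ψ` with entries in `L²(Λ^N)`, so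
the value is `+∞` exactly when `ψ` is not in `H¹(Λ^N)`. -/
def kin (L : Set E3) {N : ℕ} (ψ : Conf N → ℂ) : EReal :=
  ⨅ (D : Fin N → Fin 3 → Conf N → ℂ)
    (_ : ∀ i k, MemLp (D i k) 2 (mu L N) ∧ IsWeakDeriv L (dir i k) ψ (D i k)),
    ((1 / 2 * ∑ i, ∑ k, ∫ X, ‖D i k X‖ ^ 2 ∂(mu L N) : ℝ) : EReal)

/-- The quadratic form of the Neumann Hamiltonian `H^N_Λ = -½ ∑ Δ_i^N + U`, with value `+∞`
outside its form domain `H¹(Λ^N)`. -/
def form (ρ : ℝ) (L : Set E3) {N : ℕ} (ψ : Conf N → ℂ) : EReal :=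
  kin L ψ + ((∫ X, U ρ L X * ‖ψ X‖ ^ 2 ∂(mu L N) : ℝ) : EReal)

/-- `Φ` is an orthonormal `k`-tuple in the symmetric or antisymmetric subspace of `L²(Λ^N)`. -/
structure Frame (s : Stat) (L : Set E3) (N k : ℕ) (Φ : Fin k → Conf N → ℂ) : Prop where
  memLp : ∀ a, MemLp (Φ a) 2 (mu L N)
  stat : ∀ a, HasStat s L (Φ a)
  orthonormal : ∀ a b, ∫ X, starRingEnd ℂ (Φ a X) * Φ b X ∂(mu L N) = if a = b then 1 else 0

/-- The `k`-th eigenvalue (`k ≥ 1`, counted with multiplicity) of `H^N_Λ` on the symmetric or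
antisymmetric subspace of `L²(Λ^N)`, by the min-max principle: the infimum over
`k`-dimensional subspaces, given by an orthonormal basis `Φ`, of the largest value of the form on
the unit vectors `∑ c_a Φ_a`, `∑ |c_a|² = 1`. -/
def eig (ρ : ℝ) (s : Stat) (L : Set E3) (N k : ℕ) : EReal :=
  ⨅ (Φ : Fin k → Conf N → ℂ) (_ : Frame s L N k Φ),
    ⨆ (c : Fin k → ℂ) (_ : ∑ a, ‖c a‖ ^ 2 = 1), form ρ L (fun X => ∑ a, c a * Φ a X)

/-- The partition function `Tr e^{-β H^N_Λ} = ∑_{k ≥ 1} e^{-β λ_k}`. -/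
def partFun (β ρ : ℝ) (s : Stat) (L : Set E3) (N : ℕ) : ℝ≥0∞ :=
  ∑' k : ℕ, EReal.exp (-((β : EReal) * eig ρ s L N (k + 1)))

/-- `g^N(Λ) = |Λ|⁻¹ ln Tr e^{-β H^N_Λ}`. -/
def gN (β ρ : ℝ) (s : Stat) (L : Set E3) (N : ℕ) : EReal :=
  (((volume L).toReal⁻¹ : ℝ) : EReal) * ENNReal.log (partFun β ρ s L N)

/-- `Λ` is a bounded open set with Lipschitz boundary: near every boundary point `x` it is, in
suitable orthonormal coordinates with last axis `e`, the region below the graph of a Lipschitz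
function `γ` of the component orthogonal to `e`. -/
structure LipDomain (L : Set E3) : Prop where
  isOpen : IsOpen L
  bounded : Bornology.IsBounded L
  graph : ∀ x ∈ frontier L, ∃ e : E3, ‖e‖ = 1 ∧ ∃ (γ : E3 → ℝ) (K : NNReal),
    LipschitzWith K γ ∧ ∃ r > 0, ∀ y ∈ Metric.ball x r,
      (y ∈ L ↔ inner ℝ e y < γ (y - (inner ℝ e y : ℝ) • e))

/-- The regular sequences `Λ_1, Λ_2, …` of the problem. -/
structure Regular (ρ : ℝ) (L : ℕ → Set E3) : Prop where
  /-- bounded open sets with Lipschitz boundary -/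
  lip : ∀ j, 1 ≤ j → LipDomain (L j)
  /-- `ρ |Λ_j| = j` -/
  vol : ∀ j, 1 ≤ j → ρ * (volume (L j)).toReal = j
  /-- the points within distance `h` of the boundary have volume `o(|Λ_j|)` -/
  vanHove : ∀ h > 0, Tendsto (fun j => (volume {x ∈ L j | ∃ z ∈ frontier (L j),
    dist x z ≤ h}).toReal / (volume (L j)).toReal) atTop (𝓝 0)
  /-- `Λ_j` lies in a ball `B_j` with `|Λ_j| ≥ δ |B_j|` -/
  inBall : ∃ δ > 0, ∀ j, 1 ≤ j → ∃ (c : E3) (R : ℝ), L j ⊆ Metric.ball c R ∧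
    δ * (volume (Metric.ball c R)).toReal ≤ (volume (L j)).toReal

end

end Pool.Agent.V11111.QJ
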