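import Pool.Agent.V11111.QJ.Defs

open MeasureTheory Set Filter Topology
open scoped ENNReal InnerProductSpace

namespace Pool.Agent.V11111.QJ

noncomputable section

/-- a union of balls -/
def balls {ι : Type} (c : ι → E3) (r : ι → ℝ) : Set E3 := ⋃ a, Metric.ball (c a) (r a)

lemma isOpen_balls {ι : Type} (c : ι → E3) (r : ι → ℝ) : IsOpen (balls c r) :=
  isOpen_iUnion fun _ => Metric.isOpen_ball

lemma mem_balls {ι : Type} {c : ι → E3} {r : ι → ℝ} {x : E3} :
    x ∈ balls c r ↔ ∃ a, dist x (c a) < r a := by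
  simp [balls]

lemma frontier_balls {ι : Type} [Finite ι] {c : ι → E3} {r : ι → ℝ} {x : E3}
    (hx : x ∈ frontier (balls c r)) : ∃ a, dist x (c a) = r a := by
  rw [(isOpen_balls c r).frontier_eq] at hx
  obtain ⟨h1, h2⟩ := hx
  rw [balls, closure_iUnion_of_finite, mem_iUnion] at h1
  obtain ⟨a, ha⟩ := h1
  have h3 := Metric.closure_ball_subset_closedBall ha
  rw [Metric.mem_closedBall] at h3
  refine ⟨a, le_antisymm h3 ?_⟩
  by_contra h
  exact h2 (mem_balls.2 ⟨a, not_le.1 h⟩)

lemma sqrt_lip {R : ℝ} (hR : 0 < R) {s t : ℝ} (hs : 0 ≤ s) (ht : 0 ≤ t) :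
    |√(R ^ 2 - (min s (R / 2)) ^ 2) - √(R ^ 2 - (min t (R / 2)) ^ 2)| ≤ |s - t| := by
  set u := min s (R / 2) with hu
  set v := min t (R / 2) with hv
  have hu0 : 0 ≤ u := le_min hs (by positivity)
  have hv0 : 0 ≤ v := le_min ht (by positivity)
  have hu1 : u ≤ R / 2 := min_le_right _ _
  have hv1 : v ≤ R / 2 := min_le_right _ _
  have huv : |u - v| ≤ |s - t| := by
    have := abs_min_sub_min_le_max s (R / 2) t (R / 2)
    rw [sub_self, abs_zero, max_eq_left (abs_nonneg _)] at this
    exact this
  refine le_trans ?_ huv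
  set A := √(R ^ 2 - u ^ 2) with hA
  set B := √(R ^ 2 - v ^ 2) with hB
  have hA2 : A ^ 2 = R ^ 2 - u ^ 2 := Real.sq_sqrt (by nlinarith)
  have hB2 : B ^ 2 = R ^ 2 - v ^ 2 := Real.sq_sqrt (by nlinarith)
  have hA0 : R / 2 ≤ A := Real.le_sqrt_of_sq_le (by nlinarith)
  have hB0 : R / 2 ≤ B := Real.le_sqrt_of_sq_le (by nlinarith)
  have key : (A - B) * (A + B) = (v - u) * (u + v) := by nlinarith
  have h1 : |A - B| * (A + B) ≤ |u - v| * (A + B) := by
    calc |A - B| * (A + B) = |(A - B) * (A + B)| := by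
          rw [abs_mul, abs_of_nonneg (show (0 : ℝ) ≤ A + B by linarith)]
      _ = |u - v| * (u + v) := by
          rw [key, abs_mul, abs_of_nonneg (show (0 : ℝ) ≤ u + v by linarith), abs_sub_comm]
      _ ≤ |u - v| * (A + B) := by
          apply mul_le_mul_of_nonneg_left _ (abs_nonneg _)
          linarith
  exact le_of_mul_le_mul_right h1 (by linarith)

lemma lipDomain_balls {ι : Type} [Finite ι] {c : ι → E3} {r : ι → ℝ} (hr : ∀ a, 0 < r a)
    (hsep : ∀ a b, a ≠ b → r a + r b < dist (c a) (c b)) : LipDomain (balls c r) where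
  isOpen := isOpen_balls c r
  bounded := by
    rw [balls]
    exact (Bornology.isBounded_iUnion).2 fun a => Metric.isBounded_ball
  graph := by
    intro x hx
    obtain ⟨a, ha⟩ := frontier_balls hx
    set R := r a with hR
    have hRpos : 0 < R := hr a
    have hnorm : ‖x - c a‖ = R := by rw [← dist_eq_norm]; exact ha
    set e : E3 := R⁻¹ • (x - c a) with he
    have he1 : ‖e‖ = 1 := by
      rw [he, norm_smul, hnorm, norm_inv, Real.norm_of_nonneg hRpos.le]
      exact inv_mul_cancel₀ hRpos.ne'
    have hxc : x - c a = R • e := by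
      rw [he, smul_smul, mul_inv_cancel₀ hRpos.ne', one_smul]
    have hee : inner ℝ e e = 1 := by
      rw [real_inner_self_eq_norm_sq, he1]; norm_num
    -- the other balls are away from x
    have hev : ∀ᶠ y in 𝓝 x, ∀ b, b ≠ a → r b < dist y (c b) := by
      rw [eventually_all]
      intro b
      by_cases hb : b = a
      · exact Filter.Eventually.of_forall fun y h => absurd hb h
      have h1 : r b < dist x (c b) := by
        have h2 := hsep a b (Ne.symm hb)
        have h3 := dist_triangle (c a) x (c b)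
        rw [dist_comm (c a) x, ha] at h3
        linarith
      have h2 : IsOpen {y | r b < dist y (c b)} :=
        isOpen_lt continuous_const (continuous_id.dist continuous_const)
      filter_upwards [h2.mem_nhds h1] with y hy _
      exact hy
    obtain ⟨r', hr', hball⟩ := Metric.eventually_nhds_iff_ball.1 hev
    set p : E3 := c a - (inner ℝ e (c a) : ℝ) • e with hp
    refine ⟨e, he1, fun z => inner ℝ e (c a) + √(R ^ 2 - (min ‖z - p‖ (R / 2)) ^ 2), 1, ?_,
      min (R / 2) r', lt_min (by positivity) hr', ?_⟩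
    · apply LipschitzWith.of_dist_le_mul
      intro z z'
      rw [Real.dist_eq, NNReal.coe_one, one_mul]
      have h1 := sqrt_lip hRpos (norm_nonneg (z - p)) (norm_nonneg (z' - p))
      have h2 : |‖z - p‖ - ‖z' - p‖| ≤ dist z z' := by
        have := abs_norm_sub_norm_le (z - p) (z' - p)
        rw [sub_sub_sub_cancel_right] at this
        rwa [dist_eq_norm]
      have h3 : inner ℝ e (c a) + √(R ^ 2 - (min ‖z - p‖ (R / 2)) ^ 2)
          - (inner ℝ e (c a) + √(R ^ 2 - (min ‖z' - p‖ (R / 2)) ^ 2))
          = √(R ^ 2 - (min ‖z - p‖ (R / 2)) ^ 2) - √(R ^ 2 - (min ‖z' - p‖ (R / 2)) ^ 2) := by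
        ring
      rw [h3]
      exact h1.trans h2
    · intro y hy
      rw [Metric.mem_ball, lt_min_iff] at hy
      obtain ⟨hy1, hy2⟩ := hy
      have hyb := hball y hy2
      have hmem : y ∈ balls c r ↔ ‖y - c a‖ < R := by
        rw [mem_balls]
        constructor
        · rintro ⟨b, hb⟩
          by_cases hba : b = a
          · rw [hba, dist_eq_norm] at hb
            exact hb
          · exact absurd hb (not_lt.2 (hyb b hba).le)
        · intro h
          exact ⟨a, by rw [dist_eq_norm]; exact h⟩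
      rw [hmem]
      set s : ℝ := inner ℝ e (y - c a) with hs
      set w : E3 := (y - c a) - s • e with hw
      have hzp : y - (inner ℝ e y : ℝ) • e - p = w := by
        rw [hp, hw, hs, inner_sub_right, sub_smul]
        abel
      have hsplit : ‖y - c a‖ ^ 2 = s ^ 2 + ‖w‖ ^ 2 := by
        rw [hw, norm_sub_sq_real (y - c a) (s • e), norm_smul, he1, real_inner_smul_right,
          real_inner_comm e (y - c a), ← hs, mul_one, Real.norm_eq_abs, sq_abs]
        ring
      have hw' : w = (y - x) - (inner ℝ e (y - x) : ℝ) • e := by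
        have h1 : y - c a = (y - x) + R • e := by rw [← hxc]; abel
        rw [hw, hs, h1, inner_add_right, real_inner_smul_right, hee, mul_one, add_smul]
        abel
      have hwn : ‖w‖ ≤ ‖y - x‖ := by
        have h1 : ‖w‖ ^ 2 ≤ ‖y - x‖ ^ 2 := by
          rw [hw', norm_sub_sq_real (y - x) ((inner ℝ e (y - x) : ℝ) • e), norm_smul, he1,
            real_inner_smul_right,
            real_inner_comm e (y - x), mul_one, Real.norm_eq_abs, sq_abs]
          nlinarith [sq_nonneg (inner ℝ e (y - x) : ℝ)]
        exact le_of_sq_le_sq h1 (norm_nonneg _)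
      have hyx : ‖y - x‖ < R / 2 := by rw [← dist_eq_norm]; exact hy1
      have hmin : min ‖w‖ (R / 2) = ‖w‖ := min_eq_left (by linarith)
      have hspos : 0 < s := by
        have h1 : s = inner ℝ e (y - x) + R := by
          have h2 : y - c a = (y - x) + R • e := by rw [← hxc]; abel
          rw [hs, h2, inner_add_right, real_inner_smul_right, hee, mul_one]
        have h2 : |inner ℝ e (y - x)| ≤ ‖e‖ * ‖y - x‖ := abs_real_inner_le_norm _ _
        rw [he1, one_mul] at h2
        have h3 := (abs_le.1 h2).1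
        linarith
      have hiny : (inner ℝ e y : ℝ) = s + inner ℝ e (c a) := by
        rw [hs, inner_sub_right]; ring
      show ‖y - c a‖ < R ↔ inner ℝ e y < inner ℝ e (c a)
        + √(R ^ 2 - (min ‖y - (inner ℝ e y : ℝ) • e - p‖ (R / 2)) ^ 2)
      rw [hzp, hmin, hiny]
      constructor
      · intro h
        have h1 : s ^ 2 < R ^ 2 - ‖w‖ ^ 2 := by
          have : ‖y - c a‖ ^ 2 < R ^ 2 := by
            apply pow_lt_pow_left₀ h (norm_nonneg _) (by norm_num)
          linarith
        have h2 : s < √(R ^ 2 - ‖w‖ ^ 2) := (Real.lt_sqrt hspos.le).2 h1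
        linarith
      · intro h
        have h2 : s < √(R ^ 2 - ‖w‖ ^ 2) := by linarith
        have h1 := (Real.lt_sqrt hspos.le).1 h2
        have h3 : ‖y - c a‖ ^ 2 < R ^ 2 := by linarith
        exact lt_of_pow_lt_pow_left₀ 2 hRpos.le h3

lemma vol_ball (x : E3) {r : ℝ} (hr : 0 ≤ r) :
    (volume (Metric.ball x r)).toReal = r ^ 3 * (Real.pi * 4 / 3) := by
  rw [EuclideanSpace.volume_ball_fin_three, ENNReal.toReal_mul, ENNReal.toReal_pow,
    ENNReal.toReal_ofReal hr, ENNReal.toReal_ofReal (by positivity)]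

lemma disj_balls {ι : Type} {c : ι → E3} {r : ι → ℝ}
    (hsep : ∀ a b, a ≠ b → r a + r b < dist (c a) (c b)) :
    Pairwise (Function.onFun Disjoint fun a => Metric.ball (c a) (r a)) := by
  intro a b hab
  exact Metric.ball_disjoint_ball (hsep a b hab).le

lemma vol_balls {ι : Type} [Fintype ι] {c : ι → E3} {r : ι → ℝ} (hr : ∀ a, 0 < r a)
    (hsep : ∀ a b, a ≠ b → r a + r b < dist (c a) (c b)) :
    (volume (balls c r)).toReal = ∑ a, (r a) ^ 3 * (Real.pi * 4 / 3) := by
  rw [balls, measure_iUnion (disj_balls hsep) (fun a => measurableSet_ball), tsum_fintype,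
    ENNReal.toReal_sum (fun a _ => measure_ball_lt_top.ne)]
  exact Finset.sum_congr rfl fun a _ => vol_ball _ (hr a).le

end

end Pool.Agent.V11111.QJ
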