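import Pool.Agent.V11111.QJ.Cells
import Pool.Agent.V11111.QJ.Geo
import Pool.Agent.V11111.QJ.Coul

open MeasureTheory Set Filter Topology
open scoped ENNReal InnerProductSpace

namespace Pool.Agent.V11111.QJ

noncomputable section

/-- the first unit vector -/
def e0 : E3 := EuclideanSpace.single 0 (1 : ℝ)

lemma e0_norm : ‖e0‖ = 1 := by simp [e0]

/-- the position parameter of the `k`-th tiny ball of cluster `i` -/
def tt (n M : ℕ) (i : Fin n) (k : Fin M) : ℝ := (((i : ℕ) : ℝ) + ((k : ℕ) : ℝ) / (2 * M)) / n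

/-- the centres -/
def cen (n M : ℕ) (R : ℝ) : Option (Fin n × Fin M) → E3
  | none => 0
  | some p => (R + 1 + tt n M p.1 p.2) • e0

/-- the radii -/
def rad (n M : ℕ) (R r : ℝ) : Option (Fin n × Fin M) → ℝ
  | none => R
  | some _ => r

variable {n M : ℕ} {R r : ℝ}

lemma tt_nonneg (i : Fin n) (k : Fin M) : 0 ≤ tt n M i k := by unfold tt; positivity

lemma tt_lt_one (i : Fin n) (k : Fin M) : tt n M i k < 1 := by
  have hn : (0 : ℝ) < n := by exact_mod_cast i.pos
  have hM : (0 : ℝ) < M := by exact_mod_cast k.pos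
  have h1 : ((i : ℕ) : ℝ) + 1 ≤ n := by exact_mod_cast i.2
  have h2 : ((k : ℕ) : ℝ) / (2 * M) < 1 := by
    rw [div_lt_one (by positivity)]
    have : ((k : ℕ) : ℝ) < M := by exact_mod_cast k.2
    linarith
  unfold tt
  rw [div_lt_one hn]
  linarith

lemma tt_sepA {i i' : Fin n} (k k' : Fin M) (h : i < i') :
    1 / (2 * (n : ℝ)) ≤ tt n M i' k' - tt n M i k := by
  have hn : (0 : ℝ) < n := by exact_mod_cast i.pos
  have hM : (0 : ℝ) < M := by exact_mod_cast k.pos
  have h1 : ((i : ℕ) : ℝ) + 1 ≤ ((i' : ℕ) : ℝ) := by exact_mod_cast h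
  have h2 : ((k : ℕ) : ℝ) / (2 * M) ≤ 1 / 2 := by
    rw [div_le_div_iff₀ (by positivity) (by positivity)]
    have : ((k : ℕ) : ℝ) < M := by exact_mod_cast k.2
    linarith
  have h3 : 0 ≤ ((k' : ℕ) : ℝ) / (2 * M) := by positivity
  unfold tt
  rw [← sub_div, show 1 / (2 * (n : ℝ)) = (1 / 2) / n by field_simp]
  apply div_le_div_of_nonneg_right _ hn.le
  linarith

lemma tt_sepB (i : Fin n) {k k' : Fin M} (h : k < k') :
    1 / (2 * (M : ℝ) * n) ≤ tt n M i k' - tt n M i k := by
  have hn : (0 : ℝ) < n := by exact_mod_cast i.pos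
  have hM : (0 : ℝ) < M := by exact_mod_cast k.pos
  have h1 : ((k : ℕ) : ℝ) + 1 ≤ ((k' : ℕ) : ℝ) := by exact_mod_cast h
  unfold tt
  rw [← sub_div, show 1 / (2 * (M : ℝ) * n) = (1 / (2 * M)) / n by field_simp]
  apply div_le_div_of_nonneg_right _ hn.le
  have h2 : ((k' : ℕ) : ℝ) / (2 * M) - ((k : ℕ) : ℝ) / (2 * M) = (((k' : ℕ) : ℝ) - (k : ℕ)) / (2 * M) := by
    ring
  have h3 : 1 / (2 * (M : ℝ)) ≤ (((k' : ℕ) : ℝ) - (k : ℕ)) / (2 * M) := by
    apply div_le_div_of_nonneg_right _ (by positivity)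
    linarith
  linarith

lemma tt_sepA' {i i' : Fin n} (k k' : Fin M) (h : i ≠ i') :
    1 / (2 * (n : ℝ)) ≤ |tt n M i k - tt n M i' k'| := by
  rcases lt_or_gt_of_ne h with h1 | h1
  · rw [abs_sub_comm]
    exact (tt_sepA k k' h1).trans (le_abs_self _)
  · exact (tt_sepA k' k h1).trans (le_abs_self _)

lemma tt_sep {p q : Fin n × Fin M} (h : p ≠ q) :
    1 / (2 * (M : ℝ) * n) ≤ |tt n M p.1 p.2 - tt n M q.1 q.2| := by
  by_cases h1 : p.1 = q.1
  · have h2 : p.2 ≠ q.2 := fun h3 => h (Prod.ext h1 h3)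
    rw [← h1]
    rcases lt_or_gt_of_ne h2 with h3 | h3
    · rw [abs_sub_comm]
      exact (tt_sepB p.1 h3).trans (le_abs_self _)
    · exact (tt_sepB p.1 h3).trans (le_abs_self _)
  · refine le_trans ?_ (tt_sepA' p.2 q.2 h1)
    have hn : (0 : ℝ) < n := by exact_mod_cast p.1.pos
    have hM : (1 : ℝ) ≤ M := by exact_mod_cast p.2.pos
    apply one_div_le_one_div_of_le (by positivity)
    nlinarith

lemma dist_some (p q : Fin n × Fin M) :
    dist (cen n M R (some p)) (cen n M R (some q)) = |tt n M p.1 p.2 - tt n M q.1 q.2| := by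
  rw [dist_eq_norm]
  show ‖(R + 1 + tt n M p.1 p.2) • e0 - (R + 1 + tt n M q.1 q.2) • e0‖ = _
  rw [← sub_smul, norm_smul, e0_norm, mul_one, Real.norm_eq_abs]
  congr 1
  ring

lemma norm_some (hR : 0 < R) (p : Fin n × Fin M) :
    ‖cen n M R (some p)‖ = R + 1 + tt n M p.1 p.2 := by
  show ‖(R + 1 + tt n M p.1 p.2) • e0‖ = _
  rw [norm_smul, e0_norm, mul_one, Real.norm_of_nonneg]
  have := tt_nonneg p.1 p.2
  linarith

lemma sep (hR : 0 < R) (hr : 0 < r) (hr1 : r ≤ 1 / (8 * M * n)) (hr2 : r < 1)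
    (a b : Option (Fin n × Fin M)) (hab : a ≠ b) :
    rad n M R r a + rad n M R r b < dist (cen n M R a) (cen n M R b) := by
  cases a with
  | none =>
    cases b with
    | none => exact absurd rfl hab
    | some q =>
      show R + r < dist 0 (cen n M R (some q))
      rw [dist_zero_left, norm_some hR]
      have := tt_nonneg q.1 q.2
      linarith
  | some p =>
    cases b with
    | none =>
      show r + R < dist (cen n M R (some p)) 0
      rw [dist_zero_right, norm_some hR]
      have := tt_nonneg p.1 p.2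
      linarith
    | some q =>
      show r + r < dist (cen n M R (some p)) (cen n M R (some q))
      have hpq : p ≠ q := fun h => hab (by rw [h])
      have hn : (0 : ℝ) < n := by exact_mod_cast p.1.pos
      have hM : (0 : ℝ) < M := by exact_mod_cast p.2.pos
      rw [dist_some]
      refine lt_of_lt_of_le ?_ (tt_sep hpq)
      have h1 : 1 / (2 * (M : ℝ) * n) = 4 * (1 / (8 * M * n)) := by
        field_simp
        norm_num
      rw [h1]
      linarith

lemma rad_pos (hR : 0 < R) (hr : 0 < r) (a : Option (Fin n × Fin M)) : 0 < rad n M R r a := by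
  cases a with
  | none => exact hR
  | some p => exact hr

lemma rest_open {ι : Type} {c : ι → E3} {rr : ι → ℝ}
    (hsep : ∀ a b, a ≠ b → rr a + rr b < dist (c a) (c b)) (a : ι) :
    IsOpen (balls c rr \ Metric.ball (c a) (rr a)) := by
  have h1 : balls c rr \ Metric.ball (c a) (rr a)
      = ⋃ b, ⋃ (_ : b ≠ a), Metric.ball (c b) (rr b) := by
    ext x
    simp only [balls, Set.mem_sdiff, mem_iUnion, exists_prop]
    constructor
    · rintro ⟨⟨b, hb⟩, hx⟩
      refine ⟨b, ?_, hb⟩
      rintro rfl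
      exact hx hb
    · rintro ⟨b, hb, hx⟩
      refine ⟨⟨b, hx⟩, fun h => ?_⟩
      exact (Set.disjoint_left.1 (disj_balls hsep hb) hx) h
  rw [h1]
  exact isOpen_iUnion fun b => isOpen_iUnion fun _ => Metric.isOpen_ball

/-- the domain -/
def dom (n M : ℕ) (R r : ℝ) : Set E3 := balls (cen n M R) (rad n M R r)

lemma dom_lip (hR : 0 < R) (hr : 0 < r) (hr1 : r ≤ 1 / (8 * M * n)) (hr2 : r < 1) :
    LipDomain (dom n M R r) :=
  lipDomain_balls (rad_pos hR hr) (sep hR hr hr1 hr2)

lemma dom_fin (hR : 0 < R) (hr : 0 < r) (hr1 : r ≤ 1 / (8 * M * n)) (hr2 : r < 1) :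
    volume (dom n M R r) ≠ ⊤ :=
  (dom_lip hR hr hr1 hr2).bounded.measure_lt_top.ne

lemma dom_vol (hR : 0 < R) (hr : 0 < r) (hr1 : r ≤ 1 / (8 * M * n)) (hr2 : r < 1) :
    (volume (dom n M R r)).toReal = (R ^ 3 + n * M * r ^ 3) * (Real.pi * 4 / 3) := by
  rw [dom, vol_balls (rad_pos hR hr) (sep hR hr hr1 hr2), Fintype.sum_option]
  simp only [rad, Finset.sum_const, Finset.card_univ, Fintype.card_prod, Fintype.card_fin,
    nsmul_eq_mul, Nat.cast_mul]
  ring

lemma dom_comps {ρ : ℝ} (hρ : 0 < ρ) (hn : 0 < n) (hM : 0 < M) (hR : 0 < R) (hr : 0 < r)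
    (hr1 : r ≤ 1 / (8 * M * n)) (hr2 : r < 1) :
    Comps (dom n M R r) ρ ((n : ℝ) * (n * (1 / (4 * (n : ℝ)))⁻¹)
      + (1 / 2) * ρ ^ 2 * ((K0 + (volume (dom n M R r)).toReal) * (volume (dom n M R r)).toReal))
      (fun (i : Fin n) (k : Fin M) => Metric.ball (cen n M R (some (i, k))) r) where
  opL := isOpen_balls _ _
  fin := dom_fin hR hr hr1 hr2
  sub := fun i k x hx => mem_balls.2 ⟨some (i, k), hx⟩
  opn := fun i k => Metric.isOpen_ball
  ne := fun i k => ⟨_, Metric.mem_ball_self hr⟩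
  rest := fun i k => rest_open (sep hR hr hr1 hr2) (some (i, k))
  disj := fun i k i' k' x h1 h2 => by
    by_contra h
    have hne : (some (i, k) : Option (Fin n × Fin M)) ≠ some (i', k') := by
      intro h3
      rw [Option.some.injEq, Prod.mk.injEq] at h3
      exact h h3
    exact Set.disjoint_left.1 (disj_balls (sep hR hr hr1 hr2) hne) h1 h2
  pot := fun κ σ X hX => by
    have hn' : (0 : ℝ) < n := by exact_mod_cast hn
    have hM' : (1 : ℝ) ≤ M := by exact_mod_cast hM
    apply U_le hρ (dom_fin hR hr hr1 hr2) X (d := 1 / (4 * (n : ℝ))) (by positivity)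
    intro i j hij
    have h1 : dist (X i) (cen n M R (some (σ i, κ (σ i)))) < r := hX i
    have h2 : dist (X j) (cen n M R (some (σ j, κ (σ j)))) < r := hX j
    have h3 : 1 / (2 * (n : ℝ)) ≤ dist (cen n M R (some (σ i, κ (σ i))))
        (cen n M R (some (σ j, κ (σ j)))) := by
      rw [dist_some]
      exact tt_sepA' _ _ fun h => hij (σ.injective h)
    have h4 : dist (cen n M R (some (σ i, κ (σ i)))) (cen n M R (some (σ j, κ (σ j))))
        ≤ dist (X i) (cen n M R (some (σ i, κ (σ i)))) + dist (X i) (X j)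
          + dist (X j) (cen n M R (some (σ j, κ (σ j)))) := by
      have := dist_triangle4 (cen n M R (some (σ i, κ (σ i)))) (X i) (X j)
        (cen n M R (some (σ j, κ (σ j))))
      rwa [dist_comm (cen n M R (some (σ i, κ (σ i)))) (X i)] at this
    rw [← dist_eq_norm]
    have h5 : r ≤ 1 / (8 * (n : ℝ)) := by
      refine hr1.trans ?_
      apply one_div_le_one_div_of_le (by positivity)
      nlinarith
    have h6 : 1 / (2 * (n : ℝ)) = 4 * (1 / (8 * (n : ℝ))) := by field_simp; norm_num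
    have h7 : 1 / (4 * (n : ℝ)) = 2 * (1 / (8 * (n : ℝ))) := by field_simp; norm_num
    rw [h6] at h3
    rw [h7]
    linarith

lemma dom_ball (hR : 0 < R) (hr2 : r < 1) :
    dom n M R r ⊆ Metric.ball 0 (R + 3) := by
  intro x hx
  obtain ⟨a, ha⟩ := mem_balls.1 hx
  rw [mem_ball_zero_iff]
  cases a with
  | none =>
    have h1 : dist x 0 < R := ha
    rw [dist_zero_right] at h1
    linarith
  | some p =>
    have h1 : dist x (cen n M R (some p)) < r := ha
    rw [dist_eq_norm] at h1
    have h2 : ‖x‖ ≤ ‖x - cen n M R (some p)‖ + ‖cen n M R (some p)‖ := by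
      have := norm_add_le (x - cen n M R (some p)) (cen n M R (some p))
      rwa [sub_add_cancel] at this
    rw [norm_some hR] at h2
    have h3 := tt_lt_one p.1 p.2
    linarith

lemma dom_shell (hR : 0 < R) (hr : 0 < r) {h : ℝ} (hh : 0 < h) :
    (volume {x ∈ dom n M R r | ∃ z ∈ frontier (dom n M R r), dist x z ≤ h}).toReal
      ≤ (3 * R ^ 2 * h + n * M * r ^ 3) * (Real.pi * 4 / 3) := by
  have hsub : {x ∈ dom n M R r | ∃ z ∈ frontier (dom n M R r), dist x z ≤ h}
      ⊆ (Metric.ball (0 : E3) R \ Metric.ball (0 : E3) (R - h))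
        ∪ ⋃ p : Fin n × Fin M, Metric.ball (cen n M R (some p)) r := by
    rintro x ⟨hx, z, hz, hxz⟩
    obtain ⟨a, ha⟩ := mem_balls.1 hx
    cases a with
    | none =>
      left
      refine ⟨ha, fun h1 => ?_⟩
      have h2 : z ∉ dom n M R r := by
        have := (isOpen_balls (cen n M R) (rad n M R r)).frontier_eq
        rw [dom, this] at hz
        exact hz.2
      apply h2
      apply mem_balls.2
      refine ⟨none, ?_⟩
      show dist z 0 < R
      rw [Metric.mem_ball] at h1
      have h3 := dist_triangle z x 0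
      rw [dist_comm z x] at h3
      linarith
    | some p =>
      right
      exact mem_iUnion.2 ⟨p, ha⟩
  have hc : (0 : ℝ) < Real.pi * 4 / 3 := by positivity
  have hfin1 : volume (Metric.ball (0 : E3) R \ Metric.ball (0 : E3) (R - h)) ≠ ⊤ :=
    ne_top_of_le_ne_top measure_ball_lt_top.ne (measure_mono sdiff_subset)
  have hU : volume (⋃ p : Fin n × Fin M, Metric.ball (cen n M R (some p)) r)
      ≤ ∑ p : Fin n × Fin M, volume (Metric.ball (cen n M R (some p)) r) := by
    refine (measure_iUnion_le _).trans ?_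
    rw [tsum_fintype]
  have hfin2 : ∑ p : Fin n × Fin M, volume (Metric.ball (cen n M R (some p)) r) ≠ ⊤ :=
    ENNReal.sum_ne_top.2 fun p _ => measure_ball_lt_top.ne
  have h1 : volume {x ∈ dom n M R r | ∃ z ∈ frontier (dom n M R r), dist x z ≤ h}
      ≤ volume (Metric.ball (0 : E3) R \ Metric.ball (0 : E3) (R - h))
        + ∑ p : Fin n × Fin M, volume (Metric.ball (cen n M R (some p)) r) :=
    (measure_mono hsub).trans ((measure_union_le _ _).trans (add_le_add le_rfl hU))
  have h2 := ENNReal.toReal_mono (ENNReal.add_ne_top.2 ⟨hfin1, hfin2⟩) h1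
  rw [ENNReal.toReal_add hfin1 hfin2,
    ENNReal.toReal_sum (fun p _ => measure_ball_lt_top.ne)] at h2
  have h3 : ∑ p : Fin n × Fin M, (volume (Metric.ball (cen n M R (some p)) r)).toReal
      = n * M * r ^ 3 * (Real.pi * 4 / 3) := by
    rw [Finset.sum_congr rfl fun p _ => vol_ball _ hr.le]
    simp only [Finset.sum_const, Finset.card_univ, Fintype.card_prod, Fintype.card_fin,
      nsmul_eq_mul, Nat.cast_mul]
    ring
  have h4 : (volume (Metric.ball (0 : E3) R \ Metric.ball (0 : E3) (R - h))).toReal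
      ≤ 3 * R ^ 2 * h * (Real.pi * 4 / 3) := by
    by_cases hRh : h ≤ R
    · have h5 : volume (Metric.ball (0 : E3) R \ Metric.ball (0 : E3) (R - h))
          = volume (Metric.ball (0 : E3) R) - volume (Metric.ball (0 : E3) (R - h)) :=
        measure_sdiff (Metric.ball_subset_ball (by linarith))
          measurableSet_ball.nullMeasurableSet measure_ball_lt_top.ne
      rw [h5, ENNReal.toReal_sub_of_le (measure_mono (Metric.ball_subset_ball (by linarith)))
        measure_ball_lt_top.ne, vol_ball _ hR.le, vol_ball _ (sub_nonneg.2 hRh), ← sub_mul]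
      apply mul_le_mul_of_nonneg_right _ hc.le
      nlinarith [mul_nonneg hR.le (sq_nonneg h), mul_nonneg hh.le (sq_nonneg h),
        mul_nonneg (sub_nonneg.2 hRh) (sq_nonneg h)]
    · have h5 := ENNReal.toReal_mono measure_ball_lt_top.ne
        (measure_mono (μ := (volume : Measure E3))
          (sdiff_subset (s := Metric.ball (0 : E3) R) (t := Metric.ball (0 : E3) (R - h))))
      rw [vol_ball _ hR.le] at h5
      refine h5.trans ?_
      apply mul_le_mul_of_nonneg_right _ hc.le
      push Not at hRh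
      nlinarith [mul_nonneg (sq_nonneg R) (sub_nonneg.2 hRh.le), mul_nonneg (sq_nonneg R) hh.le]
  rw [h3] at h2
  calc _ ≤ _ := h2
    _ ≤ 3 * R ^ 2 * h * (Real.pi * 4 / 3) + n * M * r ^ 3 * (Real.pi * 4 / 3) :=
        add_le_add h4 le_rfl
    _ = _ := by ring

end

end Pool.Agent.V11111.QJ
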