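import Pool.Agent.V11111.QJ.Domain

open MeasureTheory Set Filter Topology
open scoped ENNReal InnerProductSpace

namespace Pool.Agent.V11111.QJ

noncomputable section

/-- the volume -/
def vv (ρ : ℝ) (j : ℕ) : ℝ := j / ρ

/-- the energy bound -/
def ee (ρ : ℝ) (j : ℕ) : ℝ := (j : ℝ) * (j * (1 / (4 * (j : ℝ)))⁻¹)
      + (1 / 2) * ρ ^ 2 * ((K0 + vv ρ j) * vv ρ j)

/-- the number of tiny balls per cluster -/
def mm (ρ : ℝ) (j : ℕ) : ℕ := ⌈Real.exp (j * (1 + ee ρ j))⌉₊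

/-- the radius of the tiny balls -/
def rr (ρ : ℝ) (j : ℕ) : ℝ := 1 / (8 * mm ρ j * j * (1 + ρ))

/-- the cube of the radius of the large ball -/
def aa (ρ : ℝ) (j : ℕ) : ℝ := vv ρ j / (Real.pi * 4 / 3) - j * mm ρ j * (rr ρ j) ^ 3

/-- the radius of the large ball -/
def RR (ρ : ℝ) (j : ℕ) : ℝ := (aa ρ j) ^ (1 / 3 : ℝ)

/-- the sequence of domains -/
def seqDom (ρ : ℝ) (j : ℕ) : Set E3 := dom j (mm ρ j) (RR ρ j) (rr ρ j)

variable {ρ : ℝ} {j : ℕ}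

lemma vv_pos (hρ : 0 < ρ) (hj : 1 ≤ j) : 0 < vv ρ j := by
  have : (0 : ℝ) < j := by exact_mod_cast hj
  unfold vv; positivity

lemma ee_nonneg (hρ : 0 < ρ) (hj : 1 ≤ j) : 0 ≤ ee ρ j := by
  have h1 : (0 : ℝ) < j := by exact_mod_cast hj
  have h2 := vv_pos hρ hj
  have h3 := K0_nonneg
  unfold ee; positivity

lemma mm_pos (ρ : ℝ) (j : ℕ) : 0 < mm ρ j := Nat.ceil_pos.2 (Real.exp_pos _)

lemma log_mm (ρ : ℝ) (j : ℕ) : (j : ℝ) * (1 + ee ρ j) ≤ Real.log (mm ρ j) := by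
  rw [Real.le_log_iff_exp_le (by exact_mod_cast mm_pos ρ j)]
  exact Nat.le_ceil _

lemma rr_pos (hρ : 0 < ρ) (hj : 1 ≤ j) : 0 < rr ρ j := by
  have h1 : (0 : ℝ) < j := by exact_mod_cast hj
  have h2 : (0 : ℝ) < mm ρ j := by exact_mod_cast mm_pos ρ j
  unfold rr; positivity

lemma rr_le (hρ : 0 < ρ) (hj : 1 ≤ j) : rr ρ j ≤ 1 / (8 * mm ρ j * j) := by
  have h1 : (0 : ℝ) < j := by exact_mod_cast hj
  have h2 : (0 : ℝ) < mm ρ j := by exact_mod_cast mm_pos ρ j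
  unfold rr
  apply one_div_le_one_div_of_le (by positivity)
  have h3 : (0 : ℝ) < 8 * mm ρ j * j := by positivity
  nlinarith

lemma rr_lt (hρ : 0 < ρ) (hj : 1 ≤ j) : rr ρ j < 1 := by
  have h1 : (1 : ℝ) ≤ j := by exact_mod_cast hj
  have h2 : (1 : ℝ) ≤ mm ρ j := by exact_mod_cast mm_pos ρ j
  refine (rr_le hρ hj).trans_lt ?_
  rw [div_lt_one (by positivity)]
  nlinarith

lemma tiny_le (hρ : 0 < ρ) (hj : 1 ≤ j) :
    (j : ℝ) * mm ρ j * (rr ρ j) ^ 3 ≤ 1 / (512 * (1 + ρ)) := by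
  have h1 : (1 : ℝ) ≤ j := by exact_mod_cast hj
  have h2 : (1 : ℝ) ≤ mm ρ j := by exact_mod_cast mm_pos ρ j
  set D : ℝ := (mm ρ j : ℝ) * j * (1 + ρ) with hD
  have hD1 : 1 ≤ D := by
    have h3 : (1 : ℝ) ≤ (mm ρ j : ℝ) * j := by nlinarith
    nlinarith
  have h3 : rr ρ j = 1 / (8 * D) := by unfold rr; rw [hD]; ring_nf
  have h4 : (j : ℝ) * mm ρ j = D / (1 + ρ) := by rw [hD]; field_simp
  rw [h3, h4]
  have h5 : D / (1 + ρ) * (1 / (8 * D)) ^ 3 = 1 / (512 * (1 + ρ)) * (1 / D ^ 2) := by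
    have : D ≠ 0 := by positivity
    field_simp
    norm_num
  rw [h5]
  have h6 : 1 / D ^ 2 ≤ 1 := by
    rw [div_le_one (by positivity)]
    nlinarith
  have h7 : 0 ≤ 1 / (512 * (1 + ρ)) := by positivity
  nlinarith

lemma aa_pos (hρ : 0 < ρ) (hj : 1 ≤ j) : 0 < aa ρ j := by
  have h1 : (1 : ℝ) ≤ j := by exact_mod_cast hj
  have hpi : Real.pi * 4 / 3 ≤ 5 := by linarith [Real.pi_lt_d2]
  have h2 := tiny_le hρ hj
  have h3 : 1 / (5 * ρ) ≤ vv ρ j / (Real.pi * 4 / 3) := by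
    unfold vv
    rw [div_div, div_le_div_iff₀ (by positivity) (by positivity)]
    nlinarith [mul_le_mul_of_nonneg_left hpi hρ.le]
  have h4 : 1 / (512 * (1 + ρ)) < 1 / (5 * ρ) := by
    apply one_div_lt_one_div_of_lt (by positivity)
    linarith
  unfold aa
  linarith

lemma aa_le (hρ : 0 < ρ) (hj : 1 ≤ j) : aa ρ j ≤ vv ρ j / (Real.pi * 4 / 3) := by
  have h1 : 0 < rr ρ j := rr_pos hρ hj
  unfold aa
  have : 0 ≤ (j : ℝ) * mm ρ j * (rr ρ j) ^ 3 := by positivity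
  linarith

lemma RR_pos (hρ : 0 < ρ) (hj : 1 ≤ j) : 0 < RR ρ j := Real.rpow_pos_of_pos (aa_pos hρ hj) _

lemma RR_cube (hρ : 0 < ρ) (hj : 1 ≤ j) : (RR ρ j) ^ 3 = aa ρ j := by
  unfold RR
  rw [← Real.rpow_natCast, ← Real.rpow_mul (aa_pos hρ hj).le]
  norm_num

lemma RR_sq (hρ : 0 < ρ) (hj : 1 ≤ j) : (RR ρ j) ^ 2 = (aa ρ j) ^ (2 / 3 : ℝ) := by
  unfold RR
  rw [← Real.rpow_natCast, ← Real.rpow_mul (aa_pos hρ hj).le]
  norm_num

lemma vol_eq (hρ : 0 < ρ) (hj : 1 ≤ j) : (volume (seqDom ρ j)).toReal = vv ρ j := by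
  unfold seqDom
  rw [dom_vol (RR_pos hρ hj) (rr_pos hρ hj) (rr_le hρ hj) (rr_lt hρ hj), RR_cube hρ hj]
  unfold aa
  have : Real.pi ≠ 0 := Real.pi_ne_zero
  field_simp
  ring

theorem regular (hρ : 0 < ρ) : Regular ρ (seqDom ρ) where
  lip := fun j hj => dom_lip (RR_pos hρ hj) (rr_pos hρ hj) (rr_le hρ hj) (rr_lt hρ hj)
  vol := fun j hj => by
    rw [vol_eq hρ hj, vv]
    field_simp
  vanHove := fun h hh => by
    set A : ℝ := (1 / ρ) / (Real.pi * 4 / 3) with hA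
    have hA0 : 0 < A := by positivity
    -- the comparison function
    have hlim : Tendsto (fun j : ℕ => (3 * h * A ^ (2 / 3 : ℝ) * (j : ℝ) ^ (-(1 / 3) : ℝ)
        + (j : ℝ)⁻¹) * (ρ * (Real.pi * 4 / 3))) atTop (𝓝 0) := by
      have h1 : Tendsto (fun j : ℕ => (j : ℝ) ^ (-(1 / 3) : ℝ)) atTop (𝓝 0) :=
        (tendsto_rpow_neg_atTop (by norm_num)).comp tendsto_natCast_atTop_atTop
      have h2 : Tendsto (fun j : ℕ => (j : ℝ)⁻¹) atTop (𝓝 0) := tendsto_inv_atTop_nhds_zero_nat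
      have h3 := ((h1.const_mul (3 * h * A ^ (2 / 3 : ℝ))).add h2).mul_const
        (ρ * (Real.pi * 4 / 3))
      simpa using h3
    refine squeeze_zero' (Filter.Eventually.of_forall fun j => by positivity) ?_ hlim
    filter_upwards [Filter.eventually_ge_atTop 1] with j hj
    have hj' : (1 : ℝ) ≤ j := by exact_mod_cast hj
    have hjp : (0 : ℝ) < j := by linarith
    rw [vol_eq hρ hj]
    have h1 := dom_shell (n := j) (M := mm ρ j) (RR_pos hρ hj) (rr_pos hρ hj) hh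
    have h2 := tiny_le hρ hj
    have h3 : (1 : ℝ) / (512 * (1 + ρ)) ≤ 1 := by
      rw [div_le_one (by positivity)]
      linarith
    have h4 : aa ρ j ≤ A * j := by
      refine (aa_le hρ hj).trans (le_of_eq ?_)
      rw [vv, hA]
      ring
    have h5 : (RR ρ j) ^ 2 ≤ A ^ (2 / 3 : ℝ) * (j : ℝ) ^ (2 / 3 : ℝ) := by
      rw [RR_sq hρ hj, ← Real.mul_rpow hA0.le hjp.le]
      exact Real.rpow_le_rpow (aa_pos hρ hj).le h4 (by norm_num)
    have h6 : (3 * (RR ρ j) ^ 2 * h + j * mm ρ j * (rr ρ j) ^ 3) * (Real.pi * 4 / 3)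
        ≤ (3 * (A ^ (2 / 3 : ℝ) * (j : ℝ) ^ (2 / 3 : ℝ)) * h + 1) * (Real.pi * 4 / 3) := by
      apply mul_le_mul_of_nonneg_right _ (by positivity)
      have h7 : 3 * (RR ρ j) ^ 2 * h ≤ 3 * (A ^ (2 / 3 : ℝ) * (j : ℝ) ^ (2 / 3 : ℝ)) * h := by
        apply mul_le_mul_of_nonneg_right _ hh.le
        linarith
      linarith
    have h7 : (volume {x ∈ seqDom ρ j | ∃ z ∈ frontier (seqDom ρ j), dist x z ≤ h}).toReal
        / vv ρ j ≤ ((3 * (A ^ (2 / 3 : ℝ) * (j : ℝ) ^ (2 / 3 : ℝ)) * h + 1)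
          * (Real.pi * 4 / 3)) / vv ρ j :=
      div_le_div_of_nonneg_right (h1.trans h6) (vv_pos hρ hj).le
    refine h7.trans (le_of_eq ?_)
    have h8 : (j : ℝ) ^ (-(1 / 3) : ℝ) = (j : ℝ) ^ (2 / 3 : ℝ) * (j : ℝ)⁻¹ := by
      rw [← Real.rpow_neg_one, ← Real.rpow_add hjp]
      norm_num
    rw [h8, vv]
    field_simp
  inBall := by
    refine ⟨1 / (4 + 108 * (Real.pi * 4 / 3) * ρ), by positivity, fun j hj =>
      ⟨0, RR ρ j + 3, dom_ball (RR_pos hρ hj) (rr_lt hρ hj), ?_⟩⟩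
    have hj' : (1 : ℝ) ≤ j := by exact_mod_cast hj
    have hR := RR_pos hρ hj
    rw [vol_eq hρ hj, vol_ball _ (by linarith)]
    set c : ℝ := Real.pi * 4 / 3 with hc
    have hc0 : 0 < c := by positivity
    have h1 : (RR ρ j) ^ 3 * c ≤ vv ρ j := by
      rw [RR_cube hρ hj]
      have := aa_le hρ hj
      rwa [← hc, le_div_iff₀ hc0] at this
    have h2 : (RR ρ j + 3) ^ 3 ≤ 4 * ((RR ρ j) ^ 3 + 27) := by
      nlinarith [mul_nonneg (add_pos hR (by norm_num : (0 : ℝ) < 3)).le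
        (sq_nonneg (RR ρ j - 3))]
    have h3 : 1 ≤ ρ * vv ρ j := by
      unfold vv
      rw [mul_div_cancel₀ _ hρ.ne']
      exact hj'
    rw [div_mul_eq_mul_div, one_mul, div_le_iff₀ (by positivity)]
    calc (RR ρ j + 3) ^ 3 * c ≤ 4 * ((RR ρ j) ^ 3 + 27) * c :=
          mul_le_mul_of_nonneg_right h2 hc0.le
      _ = 4 * ((RR ρ j) ^ 3 * c) + 108 * c := by ring
      _ ≤ 4 * vv ρ j + 108 * c * (ρ * vv ρ j) := by nlinarith
      _ = vv ρ j * (4 + 108 * c * ρ) := by ring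

theorem tendsto_gN (hρ : 0 < ρ) {β : ℝ} (hβ : 0 < β) (s : Stat) :
    Tendsto (fun j => gN β ρ s (seqDom ρ j) j) atTop (𝓝 ⊤) := by
  rw [EReal.tendsto_nhds_top_iff_real]
  intro x
  have h1 : ∀ᶠ j : ℕ in atTop, x / ρ < (j : ℝ) :=
    tendsto_natCast_atTop_atTop.eventually (Filter.eventually_gt_atTop _)
  have h2 : ∀ᶠ j : ℕ in atTop, β < (j : ℝ) :=
    tendsto_natCast_atTop_atTop.eventually (Filter.eventually_gt_atTop _)
  filter_upwards [h1, h2, Filter.eventually_ge_atTop 1] with j h1 h2 hj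
  have hj' : (1 : ℝ) ≤ j := by exact_mod_cast hj
  have hcomp := dom_comps (n := j) (M := mm ρ j) hρ hj (mm_pos ρ j) (RR_pos hρ hj)
    (rr_pos hρ hj) (rr_le hρ hj) (rr_lt hρ hj)
  have hvol := vol_eq hρ hj
  have hE := ee_nonneg hρ hj
  unfold seqDom at hvol
  rw [hvol] at hcomp
  have hg := gN_ge hcomp (mm_pos ρ j) hE s hβ
  refine lt_of_lt_of_le ?_ hg
  rw [EReal.coe_lt_coe_iff, hvol]
  have h3 := log_mm ρ j
  have h4 : (j : ℝ) * (j : ℝ) ≤ j * Real.log (mm ρ j) - β * ee ρ j := by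
    have h5 : (j : ℝ) * (j * (1 + ee ρ j)) ≤ j * Real.log (mm ρ j) :=
      mul_le_mul_of_nonneg_left h3 (by linarith)
    have h6 : β * ee ρ j ≤ (j * j) * ee ρ j := by
      apply mul_le_mul_of_nonneg_right _ hE
      nlinarith
    nlinarith
  have h5 : (vv ρ j)⁻¹ = ρ / j := by rw [vv, inv_div]
  show x < (vv ρ j)⁻¹ * (j * Real.log (mm ρ j) - β * ee ρ j)
  calc x < ρ * j := by
        rw [div_lt_iff₀ hρ] at h1
        linarith
    _ = (vv ρ j)⁻¹ * (j * j) := by rw [h5]; field_simp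
    _ ≤ _ := mul_le_mul_of_nonneg_left h4 (by rw [h5]; positivity)

/-- **Main theorem.** -/
theorem main : ∀ ρ : ℝ, 0 < ρ → ∃ L : ℕ → Set E3, Regular ρ L ∧
    ∀ β : ℝ, 0 < β → ∀ s : Stat, Tendsto (fun j => gN β ρ s (L j) j) atTop (𝓝 ⊤) :=
  fun ρ hρ => ⟨seqDom ρ, regular hρ, fun _ hβ s => tendsto_gN hρ hβ s⟩

end

end Pool.Agent.V11111.QJ
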