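import Pool.Agent.V11111.QJ.Defs

open MeasureTheory Set Filter Topology
open scoped ENNReal InnerProductSpace

namespace Pool.Agent.V11111.QJ

noncomputable section

/-! ### locally constant functions have zero weak derivative -/

lemma weakDeriv_zero {N : ℕ} {Ω : Set (Conf N)} (v : Conf N) {f : Conf N → ℂ}
    (hf : ∀ X ∈ Ω, f =ᶠ[𝓝 X] fun _ => f X) {φ : Conf N → ℝ} (hφ : ContDiff ℝ (⊤ : ℕ∞) φ)
    (hc : HasCompactSupport φ) (hs : tsupport φ ⊆ Ω) :
    ∫ X in Ω, ((fderiv ℝ φ X v : ℝ) : ℂ) * f X = 0 := by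
  have hφd : Differentiable ℝ φ := hφ.differentiable (by simp)
  have hφ' : Continuous (fderiv ℝ φ) := hφ.continuous_fderiv (by simp)
  have hz : ∀ X, X ∉ Ω → φ =ᶠ[𝓝 X] fun _ => 0 := by
    intro X hX
    have h1 : X ∉ tsupport φ := fun h => hX (hs h)
    exact notMem_tsupport_iff_eventuallyEq.1 h1
  have hz' : ∀ X, X ∉ Ω → fderiv ℝ φ X = 0 := by
    intro X hX
    rw [(hz X hX).fderiv_eq]
    exact fderiv_const_apply _
  set F : Conf N → ℂ := fun X => (φ X : ℂ) * f X with hF
  set F' : Conf N → ℂ := fun X => ((fderiv ℝ φ X v : ℝ) : ℂ) * f X with hF'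
  have hFloc : ∀ X, ∃ a : ℂ, F =ᶠ[𝓝 X] (fun Y => (φ Y : ℂ) * a) ∧
      ((fderiv ℝ φ X v : ℝ) : ℂ) * a = F' X := by
    intro X
    by_cases hX : X ∈ Ω
    · refine ⟨f X, ?_, rfl⟩
      filter_upwards [hf X hX] with Y hY
      rw [hF]
      simp only [hY]
    · refine ⟨0, ?_, ?_⟩
      · filter_upwards [hz X hX] with Y hY
        rw [hF]
        simp only [hY, Complex.ofReal_zero, zero_mul]
      · show ((fderiv ℝ φ X v : ℝ) : ℂ) * 0 = ((fderiv ℝ φ X v : ℝ) : ℂ) * f X
        rw [hz' X hX]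
        simp
  have hFcont : Continuous F := by
    rw [continuous_iff_continuousAt]
    intro X
    obtain ⟨a, ha, -⟩ := hFloc X
    have h1 : Continuous (fun Y => (φ Y : ℂ) * a) :=
      (Complex.continuous_ofReal.comp hφd.continuous).mul continuous_const
    exact (h1.continuousAt).congr ha.symm
  have hF'cont : Continuous F' := by
    rw [continuous_iff_continuousAt]
    intro X
    by_cases hX : X ∈ Ω
    · have h1 : Continuous (fun Y => ((fderiv ℝ φ Y v : ℝ) : ℂ) * f X) :=
        (Complex.continuous_ofReal.comp (hφ'.clm_apply continuous_const)).mul continuous_const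
      refine (h1.continuousAt).congr ?_
      filter_upwards [hf X hX] with Y hY
      rw [hF']
      simp only [hY]
    · have h1 : Continuous (fun _ : Conf N => (0 : ℂ)) := continuous_const
      refine (h1.continuousAt).congr ?_
      have h2 : ∀ᶠ Y in 𝓝 X, φ =ᶠ[𝓝 Y] fun _ => 0 := (hz X hX).eventually_nhds
      filter_upwards [h2] with Y hY
      show (0 : ℂ) = ((fderiv ℝ φ Y v : ℝ) : ℂ) * f Y
      rw [hY.fderiv_eq]
      simp
  have hFc : HasCompactSupport F := by
    have h1 : HasCompactSupport (fun X => (φ X : ℂ)) := hc.comp_left (g := fun x : ℝ => (x : ℂ))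
      Complex.ofReal_zero
    exact h1.mul_right
  have hF'c : HasCompactSupport F' := by
    have h0 : HasCompactSupport (fun X => fderiv ℝ φ X v) := hc.fderiv_apply (𝕜 := ℝ) v
    have h1 : HasCompactSupport (fun X => ((fderiv ℝ φ X v : ℝ) : ℂ)) :=
      h0.comp_left (g := fun x : ℝ => (x : ℂ)) Complex.ofReal_zero
    exact h1.mul_right
  have hFi : Integrable F := hFcont.integrable_of_hasCompactSupport hFc
  have hF'i : Integrable F' := hF'cont.integrable_of_hasCompactSupport hF'c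
  have hline : ∀ X, HasLineDerivAt ℝ F (F' X) X v := by
    intro X
    obtain ⟨a, ha, ha'⟩ := hFloc X
    have h1 : HasFDerivAt φ (fderiv ℝ φ X) X := (hφd X).hasFDerivAt
    have h2 : HasFDerivAt (fun Y => (φ Y : ℂ)) (Complex.ofRealCLM.comp (fderiv ℝ φ X)) X :=
      Complex.ofRealCLM.hasFDerivAt.comp X h1
    have h4 := (h2.mul_const a).congr_of_eventuallyEq ha
    have h5 := h4.hasLineDerivAt v
    have h6 : (a • (Complex.ofRealCLM.comp (fderiv ℝ φ X))) v = F' X := by
      rw [← ha']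
      simp [mul_comm]
    rw [h6] at h5
    exact h5
  have key := integral_bilinear_hasLineDerivAt_right_eq_neg_left_of_integrable
    (μ := (volume : Measure (Conf N))) (f := F) (f' := F') (g := fun _ => (1 : ℂ))
    (g' := fun _ => (0 : ℂ)) (v := v) (B := ContinuousLinearMap.mul ℝ ℂ)
    (by simpa using hF'i) (by simp) (by simpa using hFi) (fun X _ => hline X)
    (fun X _ => by
      have := (hasFDerivAt_const (𝕜 := ℝ) (1 : ℂ) X).hasLineDerivAt v
      simpa using this)
  have key2 : ∫ X, F' X = 0 := by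
    simpa using key
  rw [← key2]
  apply setIntegral_eq_integral_of_forall_compl_eq_zero
  intro X hX
  show ((fderiv ℝ φ X v : ℝ) : ℂ) * f X = 0
  rw [hz' X hX]
  simp

/-! ### permutations of the particles -/

/-! ### the nice functions -/

/-- functions which are locally constant, of the right statistics, and supported where the
potential energy is at most `E` -/
structure Nice (ρ E : ℝ) (s : Stat) (L : Set E3) (N : ℕ) (G : Conf N → ℂ) : Prop where
  loc : ∀ X ∈ box L N, G =ᶠ[𝓝 X] fun _ => G X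
  stat : ∀ (σ : Equiv.Perm (Fin N)) (X : Conf N), G (fun i => X (σ i)) = s.sgn σ * G X
  pot : ∀ X, G X ≠ 0 → U ρ L X ≤ E

lemma Nice.zero (ρ E : ℝ) (s : Stat) (L : Set E3) (N : ℕ) : Nice ρ E s L N (fun _ => 0) where
  loc := fun X _ => Filter.EventuallyEq.rfl
  stat := fun σ X => by simp
  pot := fun X h => absurd rfl h

lemma Nice.add {ρ E : ℝ} {s : Stat} {L : Set E3} {N : ℕ} {G H : Conf N → ℂ}
    (hG : Nice ρ E s L N G) (hH : Nice ρ E s L N H) : Nice ρ E s L N (fun X => G X + H X) where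
  loc := fun X hX => by
    filter_upwards [hG.loc X hX, hH.loc X hX] with Y h1 h2
    rw [h1, h2]
  stat := fun σ X => by rw [hG.stat, hH.stat]; ring
  pot := fun X h => by
    by_cases h1 : G X = 0
    · apply hH.pot
      intro h2
      exact h (by simp [h1, h2])
    · exact hG.pot X h1

lemma Nice.smul {ρ E : ℝ} {s : Stat} {L : Set E3} {N : ℕ} {G : Conf N → ℂ}
    (hG : Nice ρ E s L N G) (a : ℂ) : Nice ρ E s L N (fun X => a * G X) where
  loc := fun X hX => by
    filter_upwards [hG.loc X hX] with Y h1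
    rw [h1]
  stat := fun σ X => by rw [hG.stat]; ring
  pot := fun X h => hG.pot X fun h0 => h (by simp [h0])

lemma Nice.sum {ρ E : ℝ} {s : Stat} {L : Set E3} {N : ℕ} {ι : Type} (S : Finset ι)
    {G : ι → Conf N → ℂ} (hG : ∀ a, Nice ρ E s L N (G a)) (c : ι → ℂ) :
    Nice ρ E s L N (fun X => ∑ a ∈ S, c a * G a X) := by
  classical
  induction S using Finset.induction_on with
  | empty => simpa using Nice.zero ρ E s L N
  | insert a S ha ih =>
    have h := ((hG a).smul (c a)).add ih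
    simpa only [Finset.sum_insert ha] using h

lemma kin_le_of_nice {ρ E : ℝ} {s : Stat} {L : Set E3} {N : ℕ}
    {G : Conf N → ℂ} (hG : Nice ρ E s L N G) : kin L G ≤ 0 := by
  unfold kin
  refine iInf₂_le_of_le (fun _ _ _ => 0) ?_ ?_
  · intro i k
    refine ⟨MemLp.zero', fun φ hφ hc hs => ?_⟩
    have h1 := weakDeriv_zero (dir i k) hG.loc hφ hc hs
    rw [mu, h1]
    simp
  · simp

lemma form_le_of_nice {ρ E : ℝ} (hE : 0 ≤ E) {s : Stat} {L : Set E3} {N : ℕ}
    {G : Conf N → ℂ} (hG : Nice ρ E s L N G)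
    (hn : ∫ X, ‖G X‖ ^ 2 ∂(mu L N) = 1) : form ρ L G ≤ (E : EReal) := by
  unfold form
  have h1 := kin_le_of_nice hG
  have hint : Integrable (fun X => ‖G X‖ ^ 2) (mu L N) := by
    by_contra h
    rw [integral_undef h] at hn
    norm_num at hn
  have h2 : ∫ X, U ρ L X * ‖G X‖ ^ 2 ∂(mu L N) ≤ E := by
    have h3 : ∫ X, E * ‖G X‖ ^ 2 ∂(mu L N) = E := by
      rw [integral_const_mul, hn]
      ring
    by_cases hi : Integrable (fun X => U ρ L X * ‖G X‖ ^ 2) (mu L N)
    · rw [← h3]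
      apply integral_mono_ae hi (hint.const_mul E)
      refine Filter.Eventually.of_forall fun X => ?_
      show U ρ L X * ‖G X‖ ^ 2 ≤ E * ‖G X‖ ^ 2
      by_cases h0 : G X = 0
      · rw [h0]; simp
      · exact mul_le_mul_of_nonneg_right (hG.pot X h0) (by positivity)
    · rw [integral_undef hi]
      exact hE
  calc kin L G + ((∫ X, U ρ L X * ‖G X‖ ^ 2 ∂(mu L N) : ℝ) : EReal)
      ≤ 0 + (E : EReal) := by
        apply add_le_add h1
        exact_mod_cast h2
    _ = (E : EReal) := zero_add _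

/-- squared norm of a combination of an orthonormal family of functions with disjoint supports -/
lemma norm_sq_comb {L : Set E3} {N k : ℕ} {Φ : Fin k → Conf N → ℂ}
    (hint : ∀ a, Integrable (fun X => ‖Φ a X‖ ^ 2) (mu L N))
    (hn : ∀ a, ∫ X, ‖Φ a X‖ ^ 2 ∂(mu L N) = 1)
    (hdisj : ∀ a b, a ≠ b → ∀ X, Φ a X = 0 ∨ Φ b X = 0) (c : Fin k → ℂ)
    (hc : ∑ a, ‖c a‖ ^ 2 = 1) : ∫ X, ‖∑ a, c a * Φ a X‖ ^ 2 ∂(mu L N) = 1 := by
  have h1 : ∀ X, ‖∑ a, c a * Φ a X‖ ^ 2 = ∑ a, ‖c a‖ ^ 2 * ‖Φ a X‖ ^ 2 := by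
    intro X
    by_cases h : ∃ a, Φ a X ≠ 0
    · obtain ⟨a, ha⟩ := h
      have h2 : ∀ b, b ≠ a → Φ b X = 0 := fun b hb => by
        rcases hdisj b a hb X with h3 | h3
        · exact h3
        · exact absurd h3 ha
      rw [Finset.sum_eq_single a (fun b _ hb => by rw [h2 b hb, mul_zero])
        (fun h => absurd (Finset.mem_univ _) h),
        Finset.sum_eq_single a (fun b _ hb => by rw [h2 b hb]; simp)
        (fun h => absurd (Finset.mem_univ _) h), norm_mul, mul_pow]
    · push Not at h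
      simp [h]
  simp only [h1]
  rw [integral_finsetSum _ (fun a _ => (hint a).const_mul _)]
  simp only [integral_const_mul, hn, mul_one]
  exact hc

/-- min-max upper bound -/
lemma eig_le {ρ E : ℝ} (hE : 0 ≤ E) {s : Stat} {L : Set E3} {N : ℕ}
    {k : ℕ} (Φ : Fin k → Conf N → ℂ) (hΦ : Frame s L N k Φ) (hN : ∀ a, Nice ρ E s L N (Φ a))
    (hint : ∀ a, Integrable (fun X => ‖Φ a X‖ ^ 2) (mu L N))
    (hn : ∀ a, ∫ X, ‖Φ a X‖ ^ 2 ∂(mu L N) = 1)
    (hdisj : ∀ a b, a ≠ b → ∀ X, Φ a X = 0 ∨ Φ b X = 0) :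
    eig ρ s L N k ≤ (E : EReal) := by
  unfold eig
  refine iInf_le_of_le Φ (iInf_le_of_le hΦ ?_)
  refine iSup_le fun c => iSup_le fun hc => ?_
  exact form_le_of_nice hE (Nice.sum Finset.univ hN c) (norm_sq_comb hint hn hdisj c hc)

end

end Pool.Agent.V11111.QJ
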